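import Pool.Agent.W787.QC.Defs

/-!
# Project QC, part DEN: density of the range of the bilaplacian in C¹ of a ball
-/

open MeasureTheory Set Metric Filter Topology Real
open scoped ContDiff

noncomputable section

namespace Pool.Agent.W446.QC

open Pool.Agent.W787.QC

theorem den (h1 : S_DEN0) : S_DEN := by
  intro Φ hΦ R δ hR hδ
  let ζ : ContDiffBump (0 : E) := ⟨R + 1, R + 2, by linarith, by linarith⟩
  have hζ : ContDiff ℝ ∞ (fun x => ζ x) := ζ.contDiff
  obtain ⟨ψ, hψ, hb⟩ := h1 (fun x => ζ x * Φ x) (hζ.mul hΦ)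
    (ζ.hasCompactSupport.mul_right) δ hδ
  refine ⟨ψ, hψ, ?_⟩
  intro x hx
  have hx' : x ∈ ball (0 : E) (R + 1) := by
    rw [mem_closedBall] at hx
    rw [mem_ball]
    linarith
  have hev : (fun y => bil ψ y - Φ y) =ᶠ[𝓝 x] (fun y => bil ψ y - ζ y * Φ y) := by
    filter_upwards [isOpen_ball.mem_nhds hx'] with y hy
    have : ζ y = 1 := ζ.one_of_mem_closedBall (by
      have := ball_subset_closedBall hy
      simpa using this)
    rw [this, one_mul]
  have e1 := hev.eq_of_nhds
  have e2 := hev.fderiv_eq (𝕜 := ℝ)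
  obtain ⟨h2, h3⟩ := hb x
  constructor
  · rw [e1]; exact h2
  · rw [e2]; exact h3

end Pool.Agent.W446.QC
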